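import Mathlib
import Pool.Agent.Helper12_FV.Line

set_option autoImplicit false

/-!
# Sizes of polynomials with integer coefficients
-/

namespace Pool.Agent.EXP99

open Polynomial Pool.Agent.Helper12_FV

/-- Degree at most `s` and length at most `2 ^ s`. -/
def Sz (s : ℕ) (P : ℤ[X]) : Prop :=
  ∃ Q : ℕ[X], Q.natDegree ≤ s ∧ Q.eval 1 ≤ 2 ^ s ∧ Dom P Q

lemma Sz.mono {s s' : ℕ} {P : ℤ[X]} (h : Sz s P) (hs : s ≤ s') : Sz s' P := by
  obtain ⟨Q, h1, h2, h3⟩ := h
  exact ⟨Q, h1.trans hs, h2.trans (Nat.pow_le_pow_right (by norm_num) hs), h3⟩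

lemma Sz.mul {s s' : ℕ} {P P' : ℤ[X]} (h : Sz s P) (h' : Sz s' P') : Sz (s + s') (P * P') := by
  obtain ⟨Q, h1, h2, h3⟩ := h
  obtain ⟨Q', h1', h2', h3'⟩ := h'
  refine ⟨Q * Q', natDegree_mul_le.trans (Nat.add_le_add h1 h1'), ?_, h3.mul h3'⟩
  rw [eval_mul, pow_add]
  exact Nat.mul_le_mul h2 h2'

lemma Sz.add {s s' : ℕ} {P P' : ℤ[X]} (h : Sz s P) (h' : Sz s' P') :
    Sz (max s s' + 1) (P + P') := by
  obtain ⟨Q, h1, h2, h3⟩ := h.mono (le_max_left s s')
  obtain ⟨Q', h1', h2', h3'⟩ := h'.mono (le_max_right s s')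
  refine ⟨Q + Q', (natDegree_add_le _ _).trans ((max_le h1 h1').trans (Nat.le_succ _)), ?_, ?_⟩
  · rw [eval_add, pow_succ]
    omega
  · intro i
    rw [coeff_add, coeff_add]
    exact (Int.natAbs_add_le _ _).trans (Nat.add_le_add (h3 i) (h3' i))

lemma Sz.neg {s : ℕ} {P : ℤ[X]} (h : Sz s P) : Sz s (-P) := by
  obtain ⟨Q, h1, h2, h3⟩ := h
  refine ⟨Q, h1, h2, fun i => ?_⟩
  rw [coeff_neg, Int.natAbs_neg]
  exact h3 i

lemma Sz.sub {s s' : ℕ} {P P' : ℤ[X]} (h : Sz s P) (h' : Sz s' P') :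
    Sz (max s s' + 1) (P - P') := by
  rw [sub_eq_add_neg]
  exact h.add h'.neg

lemma Sz.one : Sz 0 1 := ⟨1, by simp, by simp, Dom.one⟩

lemma Sz.zero (s : ℕ) : Sz s 0 := ⟨0, by simp, by simp, fun i => by simp⟩

lemma Sz.const {s : ℕ} {z : ℤ} (h : z.natAbs ≤ 2 ^ s) : Sz s (C z) := by
  refine ⟨C z.natAbs, by simp, by simpa using h, fun i => ?_⟩
  rw [coeff_C, coeff_C]
  split_ifs <;> simp

lemma Sz.prod {ι : Type} (T : Finset ι) {s : ℕ} {P : ι → ℤ[X]} (h : ∀ i ∈ T, Sz s (P i)) :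
    Sz (T.card * s) (∏ i ∈ T, P i) := by
  classical
  induction T using Finset.induction_on with
  | empty => simpa using Sz.one
  | insert a T ha ih =>
    rw [Finset.prod_insert ha, Finset.card_insert_of_notMem ha]
    refine ((h a (Finset.mem_insert_self _ _)).mul
      (ih fun i hi => h i (Finset.mem_insert_of_mem hi))).mono (le_of_eq ?_)
    ring

lemma Sz.sum {ι : Type} (T : Finset ι) {s : ℕ} {P : ι → ℤ[X]} (h : ∀ i ∈ T, Sz s (P i)) :
    Sz (s + T.card) (∑ i ∈ T, P i) := by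
  classical
  induction T using Finset.induction_on with
  | empty => simpa using Sz.zero s
  | insert a T ha ih =>
    rw [Finset.sum_insert ha, Finset.card_insert_of_notMem ha]
    refine ((h a (Finset.mem_insert_self _ _)).add
      (ih fun i hi => h i (Finset.mem_insert_of_mem hi))).mono (le_of_eq ?_)
    rw [max_eq_right (Nat.le_add_right _ _)]
    ring

lemma Sz.pow {s : ℕ} {P : ℤ[X]} (h : Sz s P) (e : ℕ) : Sz (e * s) (P ^ e) := by
  induction e with
  | zero => simpa using Sz.one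
  | succ e ih =>
    rw [pow_succ]
    exact (ih.mul h).mono (le_of_eq (by ring))

lemma Sz.deriv {s : ℕ} {P : ℤ[X]} (h : Sz s P) : Sz (2 * s) (derivative P) := by
  obtain ⟨Q, h1, h2, h3⟩ := h
  refine ⟨derivative Q, (natDegree_derivative_le _).trans (by omega), ?_, fun i => ?_⟩
  · have e1 : (derivative Q).eval 1 ≤ Q.natDegree * Q.eval 1 := by
      rw [derivative_eval, Polynomial.eval_eq_sum, Polynomial.sum, Polynomial.sum, Finset.mul_sum]
      refine Finset.sum_le_sum fun i hi => ?_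
      rw [one_pow, one_pow, mul_one, mul_one, mul_comm]
      exact Nat.mul_le_mul_right _ (le_natDegree_of_mem_supp i hi)
    calc (derivative Q).eval 1 ≤ Q.natDegree * Q.eval 1 := e1
      _ ≤ 2 ^ s * 2 ^ s := Nat.mul_le_mul (h1.trans Nat.lt_two_pow_self.le) h2
      _ = 2 ^ (2 * s) := by rw [← pow_add, two_mul]
  · rw [coeff_derivative, coeff_derivative, Int.natAbs_mul]
    refine Nat.mul_le_mul (h3 _) ?_
    rw [Nat.cast_id]
    omega

lemma Sz.coeff {s : ℕ} {P : ℤ[X]} (h : Sz s P) (i : ℕ) : (P.coeff i).natAbs ≤ 2 ^ s := by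
  obtain ⟨Q, h1, h2, h3⟩ := h
  exact (h3 i).trans ((coeff_le_eval_one Q i).trans h2)

lemma Sz.of_coeff {D ε : ℕ} {P : ℤ[X]} (hD : P.natDegree ≤ D)
    (h : ∀ i, (P.coeff i).natAbs ≤ 2 ^ ε) : Sz (ε + D) P := by
  refine ⟨∑ i ∈ Finset.range (D + 1), C (2 ^ ε) * X ^ i, ?_, ?_, fun i => ?_⟩
  · refine (natDegree_sum_le_of_forall_le _ _ fun i hi => ?_ : _ ≤ D).trans (Nat.le_add_left _ _)
    exact (natDegree_C_mul_X_pow_le _ _).trans (Nat.lt_succ_iff.1 (Finset.mem_range.1 hi))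
  · rw [eval_finsetSum]
    simp only [eval_mul, eval_C, eval_pow, eval_X, one_pow, mul_one, Finset.sum_const,
      Finset.card_range, smul_eq_mul]
    rw [pow_add, mul_comm]
    exact Nat.mul_le_mul_left _ Nat.lt_two_pow_self
  · rw [finsetSum_coeff]
    simp only [coeff_C_mul_X_pow]
    rw [Finset.sum_ite_eq (Finset.range (D + 1)) i]
    split_ifs with hi
    · exact h i
    · rw [Finset.mem_range] at hi
      rw [coeff_eq_zero_of_natDegree_lt (by omega)]
      simp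

end Pool.Agent.EXP99
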