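import Mathlib
import Pool.Agent.Helper99_EXP.Size
import Pool.Agent.Helper12_FV.Factor

set_option autoImplicit false

/-!
# The pivot operation
-/

namespace Pool.Agent.EXP99

open MvPolynomial Pool.Agent.Helper12_FV

variable {n μ : ℕ}

/-- The derivative in the direction `β`. -/
noncomputable def DD (β : Fin n → ℤ) :
    Derivation ℤ (MvPolynomial (Fin n) ℤ) (MvPolynomial (Fin n) ℤ) :=
  mkDerivation ℤ fun s => C (β s)

/-- The numerator of the logarithmic derivative of `∏ v, f_v ^ l_v`. -/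
noncomputable def lam (β : Fin n → ℤ) (f : Fin μ → MvPolynomial (Fin n) ℤ) (l : Fin μ → ℤ) :
    MvPolynomial (Fin n) ℤ :=
  ∑ v, C (l v) * (DD β (f v) * ∏ u ∈ Finset.univ.erase v, f u)

/-- The pivot operation. -/
noncomputable def piv (β : Fin n → ℤ) (f : Fin μ → MvPolynomial (Fin n) ℤ) (l : Fin μ → ℤ)
    (A B : MvPolynomial (Fin n) ℤ) : MvPolynomial (Fin n) ℤ :=
  (∏ v, f v) * (B * DD β A - A * DD β B) + A * B * lam β f l

lemma DD_onl (α β : Fin n → ℤ) (g : MvPolynomial (Fin n) ℤ) {S : Type} [CommRing S] :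
    onl (fun s => (α s : S)) (fun s => (β s : S)) (DD β g) =
      Polynomial.derivative (onl (fun s => (α s : S)) (fun s => (β s : S)) g) := by
  induction g using MvPolynomial.induction_on with
  | C a =>
    rw [derivation_C, map_zero, onl_C, Polynomial.derivative_C]
  | add p q hp hq => rw [map_add, map_add, map_add, Polynomial.derivative_add, hp, hq]
  | mul_X p s hp =>
    rw [Derivation.leibniz, smul_eq_mul, smul_eq_mul, map_add, map_mul, map_mul, map_mul,
      Polynomial.derivative_mul, hp, onl_X]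
    have h1 : DD β (X s) = C (β s) := by rw [DD, mkDerivation_X]
    rw [h1, onl_C]
    simp only [Polynomial.derivative_add, Polynomial.derivative_C, Polynomial.derivative_mul,
      Polynomial.derivative_X, zero_mul, mul_one, zero_add]
    ring

lemma lam_zero (β : Fin n → ℤ) (f : Fin μ → MvPolynomial (Fin n) ℤ) :
    lam β f (fun _ => 0) = 0 := by
  unfold lam
  simp

lemma lam_sub (β : Fin n → ℤ) (f : Fin μ → MvPolynomial (Fin n) ℤ) (l l' : Fin μ → ℤ) :
    lam β f (fun v => l v - l' v) = lam β f l - lam β f l' := by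
  unfold lam
  rw [← Finset.sum_sub_distrib]
  refine Finset.sum_congr rfl fun v _ => ?_
  rw [map_sub, sub_mul]

/-- The logarithmic derivative of a product of powers. -/
lemma DD_pow (β : Fin n → ℤ) (f : Fin μ → MvPolynomial (Fin n) ℤ) (e : Fin μ → ℕ) :
    (∏ v, f v) * DD β (∏ v, f v ^ e v) = (∏ v, f v ^ e v) * lam β f (fun v => (e v : ℤ)) := by
  classical
  have h : ∀ s : Finset (Fin μ), (∏ v ∈ s, f v) * DD β (∏ v ∈ s, f v ^ e v) =
      (∏ v ∈ s, f v ^ e v) *
        ∑ v ∈ s, C (e v : ℤ) * (DD β (f v) * ∏ u ∈ s.erase v, f u) := by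
    intro s
    induction s using Finset.induction_on with
    | empty => simp
    | insert a s ha ih =>
      rw [Finset.prod_insert ha, Finset.prod_insert ha, Finset.sum_insert ha,
        Finset.erase_insert ha, Derivation.leibniz, smul_eq_mul, smul_eq_mul]
      have h1 : ∑ v ∈ s, C (e v : ℤ) * (DD β (f v) * ∏ u ∈ (insert a s).erase v, f u) =
          f a * ∑ v ∈ s, C (e v : ℤ) * (DD β (f v) * ∏ u ∈ s.erase v, f u) := by
        rw [Finset.mul_sum]
        refine Finset.sum_congr rfl fun v hv => ?_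
        have hva : v ≠ a := fun h => ha (h ▸ hv)
        rw [Finset.erase_insert_of_ne hva.symm, Finset.prod_insert (fun h =>
          ha (Finset.mem_of_mem_erase h))]
        ring
      have h2 : f a * DD β (f a ^ e a) = f a ^ e a * (C (e a : ℤ) * DD β (f a)) := by
        rw [Derivation.leibniz_pow, smul_eq_mul, nsmul_eq_mul]
        rcases Nat.eq_zero_or_pos (e a) with h0 | h0
        · rw [h0]
          simp
        · have h3 : f a ^ e a = f a ^ (e a - 1) * f a := by
            rw [← pow_succ, Nat.sub_add_cancel h0]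
          rw [h3]
          simp only [map_natCast]
          ring
      rw [h1]
      calc f a * (∏ v ∈ s, f v) * (f a ^ e a * DD β (∏ v ∈ s, f v ^ e v) +
            (∏ v ∈ s, f v ^ e v) * DD β (f a ^ e a))
          = f a * f a ^ e a * ((∏ v ∈ s, f v) * DD β (∏ v ∈ s, f v ^ e v)) +
            (∏ v ∈ s, f v) * (∏ v ∈ s, f v ^ e v) * (f a * DD β (f a ^ e a)) := by ring
        _ = _ := by rw [ih, h2]; ring
  exact h Finset.univ

/-- The pivot operation on a sum of terms. -/
lemma piv_sum {ι : Type} (β : Fin n → ℤ) (f : Fin μ → MvPolynomial (Fin n) ℤ) (I : Finset ι)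
    (A : ι → MvPolynomial (Fin n) ℤ) (e : ι → Fin μ → ℕ) (j : ι) :
    ∑ i ∈ I, piv β f (fun v => (e i v : ℤ) - e j v) (A i) (A j) * ∏ v, f v ^ e i v =
      (∏ v, f v) * (A j * DD β (∑ i ∈ I, A i * ∏ v, f v ^ e i v) -
        (∑ i ∈ I, A i * ∏ v, f v ^ e i v) * DD β (A j)) -
        (∑ i ∈ I, A i * ∏ v, f v ^ e i v) * A j * lam β f (fun v => (e j v : ℤ)) := by
  rw [map_sum, Finset.mul_sum, Finset.sum_mul, Finset.sum_mul, Finset.sum_mul,
    ← Finset.sum_sub_distrib, Finset.mul_sum, ← Finset.sum_sub_distrib]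
  refine Finset.sum_congr rfl fun i _ => ?_
  unfold piv
  rw [lam_sub, Derivation.leibniz, smul_eq_mul, smul_eq_mul]
  have h := DD_pow β f (e i)
  calc ((∏ v, f v) * (A j * DD β (A i) - A i * DD β (A j)) +
        A i * A j * (lam β f (fun v => (e i v : ℤ)) - lam β f fun v => (e j v : ℤ))) *
        ∏ v, f v ^ e i v
      = (∏ v, f v) * (A j * DD β (A i) - A i * DD β (A j)) * (∏ v, f v ^ e i v) +
        A i * A j * ((∏ v, f v ^ e i v) * lam β f (fun v => (e i v : ℤ))) -
        A i * A j * (∏ v, f v ^ e i v) * lam β f (fun v => (e j v : ℤ)) := by ring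
    _ = _ := by rw [← h]; ring

lemma piv_self (β : Fin n → ℤ) (f : Fin μ → MvPolynomial (Fin n) ℤ) (l : Fin μ → ℕ)
    (A : MvPolynomial (Fin n) ℤ) : piv β f (fun v => (l v : ℤ) - l v) A A = 0 := by
  unfold piv
  rw [lam_sub, sub_self, sub_self]
  simp

end Pool.Agent.EXP99
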