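import Mathlib
import Pool.Agent.Helper99_EXP.Pivot

set_option autoImplicit false

/-!
# Valuations and the derivative in a direction
-/

namespace Pool.Agent.EXP99

open MvPolynomial Pool.Agent.Helper12_FV

variable {n μ : ℕ}

lemma degree_DD (β : Fin n → ℤ) (g : MvPolynomial (Fin n) ℤ) (hg : 1 ≤ g.totalDegree) :
    (DD β g).totalDegree < g.totalDegree := by
  classical
  have h1 : ∀ d : Fin n →₀ ℕ, d ∈ g.support →
      (DD β (monomial d (coeff d g))).totalDegree ≤ g.totalDegree - 1 := by
    intro d hd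
    unfold DD
    rw [mkDerivation_monomial]
    refine (totalDegree_smul_le _ _).trans ?_
    rw [Finsupp.sum]
    refine totalDegree_finsetSum_le fun i hi => ?_
    rw [smul_eq_mul]
    refine (totalDegree_mul _ _).trans ?_
    rw [totalDegree_C, add_zero]
    refine (totalDegree_monomial_le _ _).trans ?_
    have h2 := le_totalDegree hd
    have h3 : (d - Finsupp.single i 1).sum (fun _ e => e) + 1 = d.sum fun _ e => e := by
      have h4 : d = d - Finsupp.single i 1 + Finsupp.single i 1 := by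
        rw [tsub_add_cancel_of_le]
        rw [Finsupp.single_le_iff]
        exact Nat.one_le_iff_ne_zero.2 (Finsupp.mem_support_iff.1 hi)
      conv_rhs => rw [h4]
      rw [Finsupp.sum_add_index' (fun _ => rfl) (fun _ _ _ => rfl), Finsupp.sum_single_index rfl]
    change (d - Finsupp.single i 1).sum (fun _ e => e) ≤ _
    omega
  have h2 : (DD β g).totalDegree ≤ g.totalDegree - 1 := by
    conv_lhs => rw [g.as_sum]
    rw [map_sum]
    exact totalDegree_finsetSum_le h1
  omega

/-- A prime of positive degree does not divide a nonzero constant. -/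
lemma not_dvd_const {p : MvPolynomial (Fin n) ℤ} (hp : 1 ≤ p.totalDegree) {z : ℤ} (hz : z ≠ 0) :
    ¬ p ∣ C z := by
  intro h
  have h1 := totalDegree_le_of_dvd_of_isDomain h (by simpa using hz)
  rw [totalDegree_C] at h1
  omega

lemma not_dvd_DD {p : MvPolynomial (Fin n) ℤ} (hp : 1 ≤ p.totalDegree) (β : Fin n → ℤ)
    (h0 : DD β p ≠ 0) : ¬ p ∣ DD β p := by
  intro h
  have h1 := totalDegree_le_of_dvd_of_isDomain h h0
  have h2 := degree_DD β p hp
  omega

/-- If `DG * F = G * DF` then the valuations of `G` and `F` at `p` are equal. -/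
lemma val_eq {p : MvPolynomial (Fin n) ℤ} (hp : Prime p) (hp1 : 1 ≤ p.totalDegree)
    (β : Fin n → ℤ) (h0 : DD β p ≠ 0) {G F u w : MvPolynomial (Fin n) ℤ} {a b : ℕ}
    (hG : G = p ^ a * u) (hF : F = p ^ b * w) (hu : ¬ p ∣ u) (hw : ¬ p ∣ w)
    (h : DD β G * F = G * DD β F) : a = b := by
  have hD : ∀ (c : ℕ) (x : MvPolynomial (Fin n) ℤ), p * DD β (p ^ c * x) =
      p ^ c * (C (c : ℤ) * x * DD β p + p * DD β x) := by
    intro c x
    rw [Derivation.leibniz, Derivation.leibniz_pow, smul_eq_mul, smul_eq_mul, smul_eq_mul,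
      nsmul_eq_mul]
    rcases Nat.eq_zero_or_pos c with h1 | h1
    · rw [h1]
      simp
    · have h3 : p ^ c = p ^ (c - 1) * p := by
        rw [← pow_succ, Nat.sub_add_cancel h1]
      rw [h3]
      simp only [map_natCast]
      ring
  have h1 : p ^ (a + b) * (w * (C (a : ℤ) * u * DD β p + p * DD β u)) =
      p ^ (a + b) * (u * (C (b : ℤ) * w * DD β p + p * DD β w)) := by
    calc p ^ (a + b) * (w * (C (a : ℤ) * u * DD β p + p * DD β u))
        = (p ^ a * (C (a : ℤ) * u * DD β p + p * DD β u)) * (p ^ b * w) := by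
          rw [pow_add]; ring
      _ = p * (DD β G * F) := by rw [← hD, ← hG, ← hF]; ring
      _ = p * (G * DD β F) := by rw [h]
      _ = (p ^ a * u) * (p * DD β (p ^ b * w)) := by rw [← hG, ← hF]; ring
      _ = _ := by rw [hD, pow_add]; ring
  have h2 := mul_left_cancel₀ (pow_ne_zero (a + b) hp.ne_zero) h1
  by_contra hab
  have h3 : p ∣ C ((a : ℤ) - b) * (u * w * DD β p) := by
    refine ⟨u * DD β w - w * DD β u, ?_⟩
    rw [map_sub]
    linear_combination h2
  rcases hp.dvd_or_dvd h3 with h4 | h4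
  · exact not_dvd_const hp1 (sub_ne_zero.2 (by exact_mod_cast hab)) h4
  rcases hp.dvd_or_dvd h4 with h5 | h5
  · rcases hp.dvd_or_dvd h5 with h6 | h6
    · exact hu h6
    · exact hw h6
  · exact not_dvd_DD hp1 β h0 h5

/-- Splitting off the power of a prime. -/
lemma exists_split {p g : MvPolynomial (Fin n) ℤ} (hp1 : 1 ≤ p.totalDegree) (hg : g ≠ 0) :
    ∃ (a : ℕ) (u : MvPolynomial (Fin n) ℤ), g = p ^ a * u ∧ ¬ p ∣ u ∧ a ≤ g.totalDegree := by
  have hp0 : p ≠ 0 := by
    rintro rfl
    simp at hp1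
  have hu : ¬ IsUnit p := fun h => by
    rw [totalDegree_unit h] at hp1
    omega
  have hf : FiniteMultiplicity p g := FiniteMultiplicity.of_not_isUnit hu hg
  obtain ⟨u, h1, h2⟩ := hf.exists_eq_pow_mul_and_not_dvd
  refine ⟨multiplicity p g, u, h1, h2, ?_⟩
  have h3 := totalDegree_le_of_dvd_of_isDomain (Dvd.intro u h1.symm) hg
  rw [totalDegree_pow_eq _ hp0] at h3
  exact (Nat.le_mul_of_pos_right _ hp1).trans h3

end Pool.Agent.EXP99
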