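import Mathlib
import Pool.Agent.Helper99_EXP.Val

set_option autoImplicit false

/-!
# The recursion: certificates for sums of few products of powers
-/

namespace Pool.Agent.EXP99

open MvPolynomial Pool.Agent.Helper12_FV

variable {n μ : ℕ}

/-- All exponents of two terms with zero pivots are close. -/
lemma close_exp (β : Fin n → ℤ) (f : Fin μ → MvPolynomial (Fin n) ℤ) (hf0 : ∀ v, f v ≠ 0)
    (hpr : ∀ v, ∃ p, Prime p ∧ 1 ≤ p.totalDegree ∧ p ∣ f v ∧ (∀ u, u ≠ v → ¬ p ∣ f u) ∧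
      DD β p ≠ 0) (F : MvPolynomial (Fin n) ℤ) (hF : F ≠ 0) (d : ℕ)
    (A B : MvPolynomial (Fin n) ℤ) (e e' : Fin μ → ℕ) (hA : A ≠ 0) (hB : B ≠ 0)
    (hAd : A.totalDegree ≤ d) (hBd : B.totalDegree ≤ d)
    (h : (∏ v, f v) * (A * DD β F - F * DD β A) - F * A * lam β f (fun v => (e v : ℤ)) = 0)
    (h' : (∏ v, f v) * (B * DD β F - F * DD β B) - F * B * lam β f (fun v => (e' v : ℤ)) = 0)
    (v : Fin μ) : e v ≤ e' v + d := by
  classical
  obtain ⟨p, hp, hp1, hpv, hpu, hD⟩ := hpr v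
  have hH : ∏ v, f v ≠ 0 := Finset.prod_ne_zero_iff.2 fun v _ => hf0 v
  obtain ⟨m, φ, hfm, hφ, -⟩ := exists_split hp1 (hf0 v)
  have hm : 1 ≤ m := by
    by_contra hcon
    have h0 : m = 0 := by omega
    rw [h0, pow_zero, one_mul] at hfm
    exact hφ (hfm ▸ hpv)
  obtain ⟨b, w, hFb, hw, -⟩ := exists_split hp1 hF
  -- the valuation of a term
  have key : ∀ (A : MvPolynomial (Fin n) ℤ) (e : Fin μ → ℕ), A ≠ 0 → A.totalDegree ≤ d →
      (∏ v, f v) * (A * DD β F - F * DD β A) - F * A * lam β f (fun v => (e v : ℤ)) = 0 →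
      ∃ a, a ≤ d ∧ a + m * e v = b := by
    intro A e hA hAd h
    obtain ⟨a, u, hAa, hu, hle⟩ := exists_split hp1 hA
    refine ⟨a, hle.trans hAd, ?_⟩
    obtain ⟨T, hT⟩ : ∃ T, T = ∏ v, f v ^ e v := ⟨_, rfl⟩
    have hTD := DD_pow β f e
    rw [← hT] at hTD
    have h1 : DD β (A * T) * F = A * T * DD β F := by
      apply mul_left_cancel₀ hH
      rw [Derivation.leibniz, smul_eq_mul, smul_eq_mul]
      calc (∏ v, f v) * ((A * DD β T + T * DD β A) * F)
          = A * F * ((∏ v, f v) * DD β T) + T * F * (∏ v, f v) * DD β A := by ring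
        _ = A * F * (T * lam β f (fun v => (e v : ℤ))) + T * F * (∏ v, f v) * DD β A := by
            rw [hTD]
        _ = T * ((∏ v, f v) * A * DD β F) - T * ((∏ v, f v) * (A * DD β F - F * DD β A) -
            F * A * lam β f (fun v => (e v : ℤ))) := by ring
        _ = _ := by rw [h]; ring
    have h2 : A * T = p ^ (a + m * e v) *
        (u * (φ ^ e v * ∏ x ∈ Finset.univ.erase v, f x ^ e x)) := by
      rw [hT, ← Finset.mul_prod_erase Finset.univ _ (Finset.mem_univ v)]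
      conv_lhs => rw [hAa]
      have h3 : f v ^ e v = p ^ (m * e v) * φ ^ e v := by
        conv_lhs => rw [hfm]
        rw [mul_pow, ← pow_mul]
      rw [h3, pow_add]
      ring
    have h3 : ¬ p ∣ u * (φ ^ e v * ∏ x ∈ Finset.univ.erase v, f x ^ e x) := by
      intro hd
      rcases hp.dvd_or_dvd hd with h4 | h4
      · exact hu h4
      rcases hp.dvd_or_dvd h4 with h5 | h5
      · exact hφ (hp.dvd_of_dvd_pow h5)
      · obtain ⟨x, hx, hxd⟩ := hp.exists_mem_finset_dvd h5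
        exact hpu x (Finset.ne_of_mem_erase hx) (hp.dvd_of_dvd_pow hxd)
    exact val_eq hp hp1 β hD h2 hFb h3 hw h1
  obtain ⟨a, ha, hab⟩ := key A e hA hAd h
  obtain ⟨a', ha', hab'⟩ := key B e' hB hBd h'
  have h5 : m * e v ≤ m * e' v + d := by omega
  have h6 : m * e' v + d ≤ m * (e' v + d) := by
    rw [mul_add]
    exact Nat.add_le_add_left (Nat.le_mul_of_pos_left _ hm) _
  exact Nat.le_of_mul_le_mul_left (h5.trans h6) hm

/-- One step of the degree bound. -/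
def dst (x : ℕ) (d : ℕ) : ℕ := 2 * d + x

/-- One step of the size bound. -/
def sst (Q : ℕ) (s : ℕ) : ℕ := 3 * s + Q + 3

lemma le_dst_iter (x r d : ℕ) : d ≤ (dst x)^[r] d := by
  induction r generalizing d with
  | zero => exact le_rfl
  | succ r ih =>
    rw [Function.iterate_succ_apply]
    exact le_trans (by unfold dst; omega) (ih _)

lemma le_sst_iter (Q r s : ℕ) : s ≤ (sst Q)^[r] s := by
  induction r generalizing s with
  | zero => exact le_rfl
  | succ r ih =>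
    rw [Function.iterate_succ_apply]
    exact le_trans (by unfold sst; omega) (ih _)

lemma degree_DD_le (β : Fin n → ℤ) (g : MvPolynomial (Fin n) ℤ) :
    (DD β g).totalDegree ≤ g.totalDegree := by
  rcases Nat.eq_zero_or_pos g.totalDegree with h | h
  · rw [totalDegree_eq_zero_iff_eq_C.1 h, derivation_C, totalDegree_zero]
    exact Nat.zero_le _
  · exact (degree_DD β g h).le

lemma degree_lam (β : Fin n → ℤ) (f : Fin μ → MvPolynomial (Fin n) ℤ) (D0 : ℕ)
    (hfD : ∀ v, (f v).totalDegree ≤ D0) (l : Fin μ → ℤ) :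
    (lam β f l).totalDegree ≤ μ * D0 := by
  classical
  unfold lam
  refine totalDegree_finsetSum_le fun v _ => ?_
  refine (totalDegree_mul _ _).trans ?_
  rw [totalDegree_C, zero_add]
  refine (totalDegree_mul _ _).trans ?_
  have h1 : (∏ u ∈ Finset.univ.erase v, f u).totalDegree ≤ (μ - 1) * D0 := by
    refine (totalDegree_finsetProd _ _).trans ?_
    refine (Finset.sum_le_card_nsmul _ _ D0 fun u _ => hfD u).trans ?_
    rw [Finset.card_erase_of_mem (Finset.mem_univ v), Finset.card_univ, Fintype.card_fin,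
      smul_eq_mul]
  have hμ : μ = μ - 1 + 1 := by
    have := v.pos
    omega
  have h2 := (degree_DD_le β (f v)).trans (hfD v)
  calc (DD β (f v)).totalDegree + (∏ u ∈ Finset.univ.erase v, f u).totalDegree
      ≤ D0 + (μ - 1) * D0 := Nat.add_le_add h2 h1
    _ = (μ - 1 + 1) * D0 := by ring
    _ = μ * D0 := by rw [← hμ]

lemma degree_prod (f : Fin μ → MvPolynomial (Fin n) ℤ) (D0 : ℕ)
    (hfD : ∀ v, (f v).totalDegree ≤ D0) : (∏ v, f v).totalDegree ≤ μ * D0 := by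
  refine (totalDegree_finsetProd _ _).trans ?_
  refine (Finset.sum_le_card_nsmul _ _ D0 fun u _ => hfD u).trans ?_
  rw [Finset.card_univ, Fintype.card_fin, smul_eq_mul]

lemma degree_piv (β : Fin n → ℤ) (f : Fin μ → MvPolynomial (Fin n) ℤ) (D0 : ℕ)
    (hfD : ∀ v, (f v).totalDegree ≤ D0) (l : Fin μ → ℤ) (A B : MvPolynomial (Fin n) ℤ) (d : ℕ)
    (hA : A.totalDegree ≤ d) (hB : B.totalDegree ≤ d) :
    (piv β f l A B).totalDegree ≤ dst (μ * D0) d := by
  unfold piv dst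
  refine (totalDegree_add _ _).trans (max_le ?_ ?_)
  · refine (totalDegree_mul _ _).trans ?_
    have h1 := degree_prod f D0 hfD
    have h2 : (B * DD β A - A * DD β B).totalDegree ≤ 2 * d := by
      refine (totalDegree_sub _ _).trans (max_le ?_ ?_)
      · refine (totalDegree_mul _ _).trans ?_
        have := degree_DD_le β A
        omega
      · refine (totalDegree_mul _ _).trans ?_
        have := degree_DD_le β B
        omega
    omega
  · refine (totalDegree_mul _ _).trans ?_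
    have h1 := degree_lam β f D0 hfD l
    have h2 := totalDegree_mul A B
    omega

lemma Sz_lam (β : Fin n → ℤ) (f : Fin μ → MvPolynomial (Fin n) ℤ) (l : Fin μ → ℤ) (bb q : ℕ)
    (hl : ∀ v, (l v).natAbs ≤ 2 ^ bb) (ψ : MvPolynomial (Fin n) ℤ →+* Polynomial ℤ)
    (hψ : ∀ g, ψ (DD β g) = Polynomial.derivative (ψ g)) (hq : ∀ v, Sz q (ψ (f v))) :
    Sz (μ + bb + 2 * q + μ * q) (ψ (lam β f l)) := by
  classical
  unfold lam
  rw [map_sum]
  have h1 : ∀ v ∈ (Finset.univ : Finset (Fin μ)), Sz (bb + (2 * q + μ * q))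
      (ψ (C (l v) * (DD β (f v) * ∏ u ∈ Finset.univ.erase v, f u))) := by
    intro v _
    rw [map_mul, map_mul, hψ, map_prod]
    have h2 : ψ (C (l v)) = Polynomial.C (l v) :=
      (eq_intCast (ψ.comp C) (l v)).trans (eq_intCast Polynomial.C (l v)).symm
    rw [h2]
    refine (Sz.const (hl v)).mul ((hq v).deriv.mul ((Sz.prod _ fun u _ => hq u).mono ?_))
    apply Nat.mul_le_mul_right
    refine (Finset.card_le_univ _).trans ?_
    rw [Fintype.card_fin]
  refine (Sz.sum _ h1).mono ?_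
  rw [Finset.card_univ, Fintype.card_fin]
  omega

lemma Sz_piv (β : Fin n → ℤ) (f : Fin μ → MvPolynomial (Fin n) ℤ) (l : Fin μ → ℤ) (bb q s : ℕ)
    (hl : ∀ v, (l v).natAbs ≤ 2 ^ bb) (ψ : MvPolynomial (Fin n) ℤ →+* Polynomial ℤ)
    (hψ : ∀ g, ψ (DD β g) = Polynomial.derivative (ψ g)) (hq : ∀ v, Sz q (ψ (f v)))
    (A B : MvPolynomial (Fin n) ℤ) (hA : Sz s (ψ A)) (hB : Sz s (ψ B)) :
    Sz (sst (μ + bb + 2 * q + μ * q) s) (ψ (piv β f l A B)) := by
  have h1 := Sz_lam β f l bb q hl ψ hψ hq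
  have h2 : Sz (μ * q) (ψ (∏ v, f v)) := by
    rw [map_prod]
    refine (Sz.prod _ fun u _ => hq u).mono (le_of_eq ?_)
    rw [Finset.card_univ, Fintype.card_fin]
  unfold piv sst
  rw [map_add, map_mul, map_sub, map_mul, map_mul, map_mul, map_mul, hψ, hψ]
  refine ((h2.mul ((hB.mul hA.deriv).sub (hA.mul hB.deriv))).add ((hA.mul hB).mul h1)).mono ?_
  rw [max_self]
  refine Nat.succ_le_of_lt (Nat.lt_succ_of_le ?_)
  have h3 : μ * q + (s + 2 * s + 1) ≤ 3 * s + (μ + bb + 2 * q + μ * q) + 2 := by omega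
  have h4 : s + s + (μ + bb + 2 * q + μ * q) ≤ 3 * s + (μ + bb + 2 * q + μ * q) + 2 := by omega
  exact max_le h3 h4

/-- The certificate: all exponents are small. -/
def Cert (β : Fin n → ℤ) (f : Fin μ → MvPolynomial (Fin n) ℤ) (D0 : ℕ)
    (Q : ℕ → MvPolynomial (Fin n) ℤ → Prop) {k : ℕ} (bb : ℕ) (r r0 : ℕ) (I : Finset (Fin k))
    (A : Fin k → MvPolynomial (Fin n) ℤ) (d : ℕ) (F : MvPolynomial (Fin n) ℤ) : Prop :=
  ∃ (r1 : ℕ) (I' : Finset (Fin k)) (A' : Fin k → MvPolynomial (Fin n) ℤ)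
    (e' : Fin k → Fin μ → ℕ), r1 ≤ r0 + r ∧ (∀ i ∈ I', Q r1 (A' i)) ∧
    (∀ i ∈ I', (A' i).totalDegree ≤ (dst (μ * D0))^[r] d) ∧
    (∀ i ∈ I', ∀ v, e' i v ≤ (dst (μ * D0))^[r] d) ∧
    ∑ i ∈ I', A' i * ∏ v, f v ^ e' i v ≠ 0 ∧
    (∀ (κ : Type) [Field κ] (ψ : MvPolynomial (Fin n) ℤ →+* Polynomial κ),
      (∀ g, ψ (DD β g) = Polynomial.derivative (ψ g)) →
      (ψ ((∑ i ∈ I', A' i * ∏ v, f v ^ e' i v) * ∏ v, f v)).eval 0 ≠ 0 →
      ∀ N, Polynomial.X ^ N ∣ ψ F → N ≤ r) ∧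
    (∀ (ψ : MvPolynomial (Fin n) ℤ →+* Polynomial ℤ),
      (∀ g, ψ (DD β g) = Polynomial.derivative (ψ g)) → ∀ q s,
      (∀ v, Sz q (ψ (f v))) → (∀ i ∈ I, Sz s (ψ (A i))) →
      ∀ i ∈ I', Sz ((sst (μ + bb + 2 * q + μ * q))^[r] s) (ψ (A' i)))

/-- All pivots are zero. -/
lemma cert_close (β : Fin n → ℤ) (f : Fin μ → MvPolynomial (Fin n) ℤ) (hf0 : ∀ v, f v ≠ 0)
    (hpr : ∀ v, ∃ p, Prime p ∧ 1 ≤ p.totalDegree ∧ p ∣ f v ∧ (∀ u, u ≠ v → ¬ p ∣ f u) ∧
      DD β p ≠ 0) (D0 : ℕ)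
    (Q : ℕ → MvPolynomial (Fin n) ℤ → Prop) {k : ℕ} (bb : ℕ)
    (e : Fin k → Fin μ → ℕ) (r r0 : ℕ) (I : Finset (Fin k))
    (A : Fin k → MvPolynomial (Fin n) ℤ) (d : ℕ) (hQA : ∀ i ∈ I, Q r0 (A i))
    (hAd : ∀ i ∈ I, (A i).totalDegree ≤ d) (hA0 : ∀ i ∈ I, A i ≠ 0)
    (F : MvPolynomial (Fin n) ℤ) (hFs : F = ∑ i ∈ I, A i * ∏ v, f v ^ e i v) (hF : F ≠ 0)
    (hz : ∀ j ∈ I, (∏ v, f v) * (A j * DD β F - F * DD β (A j)) -
      F * A j * lam β f (fun v => (e j v : ℤ)) = 0) :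
    Cert β f D0 Q bb r r0 I A d F := by
  classical
  have hI : I.Nonempty := by
    rw [Finset.nonempty_iff_ne_empty]
    rintro rfl
    apply hF
    rw [hFs, Finset.sum_empty]
  have hex : ∀ v, ∃ j ∈ I, ∀ i ∈ I, e j v ≤ e i v := fun v => I.exists_min_image (fun i => e i v) hI
  choose j hjI hj using hex
  have hfac : F = (∏ v, f v ^ e (j v) v) *
      ∑ i ∈ I, A i * ∏ v, f v ^ (e i v - e (j v) v) := by
    rw [hFs, Finset.mul_sum]
    refine Finset.sum_congr rfl fun i hi => ?_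
    rw [mul_left_comm, ← Finset.prod_mul_distrib]
    congr 1
    refine Finset.prod_congr rfl fun v _ => ?_
    rw [← pow_add, Nat.add_sub_cancel' (hj v i hi)]
  refine ⟨r0, I, A, fun i v => e i v - e (j v) v, Nat.le_add_right _ _, hQA,
    fun i hi => (hAd i hi).trans (le_dst_iter _ _ _), ?_, ?_, ?_, ?_⟩
  · intro i hi v
    refine le_trans ?_ (le_dst_iter _ _ _)
    have h1 := close_exp β f hf0 hpr F hF d (A i) (A (j v)) (e i) (e (j v)) (hA0 i hi)
      (hA0 _ (hjI v)) (hAd i hi) (hAd _ (hjI v)) (hz i hi) (hz _ (hjI v)) v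
    change e i v - e (j v) v ≤ d
    omega
  · intro h0
    apply hF
    rw [hfac, h0, mul_zero]
  · intro κ _ ψ hψ hne N hN
    rcases Nat.eq_zero_or_pos N with h0 | h0
    · rw [h0]
      exact Nat.zero_le _
    exfalso
    rw [map_mul, Polynomial.eval_mul] at hne
    have h1 : (ψ F).eval 0 = 0 := by
      obtain ⟨P, hP⟩ := hN
      rw [hP, Polynomial.eval_mul, Polynomial.eval_pow, Polynomial.eval_X,
        zero_pow (by omega), zero_mul]
    rw [hfac, map_mul, Polynomial.eval_mul] at h1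
    rcases mul_eq_zero.1 h1 with h2 | h2
    · rw [map_prod, Polynomial.eval_prod, Finset.prod_eq_zero_iff] at h2
      obtain ⟨v, -, h3⟩ := h2
      rw [map_pow, Polynomial.eval_pow] at h3
      apply right_ne_zero_of_mul hne
      rw [map_prod, Polynomial.eval_prod]
      exact Finset.prod_eq_zero (Finset.mem_univ v) (eq_zero_of_pow_eq_zero h3)
    · exact left_ne_zero_of_mul hne h2
  · intro ψ _ q s _ hs i hi
    exact (hs i hi).mono (le_sst_iter _ _ _)

/-- The recursion. -/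
theorem recur (β : Fin n → ℤ) (f : Fin μ → MvPolynomial (Fin n) ℤ) (hf0 : ∀ v, f v ≠ 0)
    (hpr : ∀ v, ∃ p, Prime p ∧ 1 ≤ p.totalDegree ∧ p ∣ f v ∧ (∀ u, u ≠ v → ¬ p ∣ f u) ∧
      DD β p ≠ 0) (D0 : ℕ) (hfD : ∀ v, (f v).totalDegree ≤ D0)
    (Q : ℕ → MvPolynomial (Fin n) ℤ → Prop)
    (hQ : ∀ r A B l, Q r A → Q r B → Q (r + 1) (piv β f l A B)) {k : ℕ} (bb : ℕ)
    (e : Fin k → Fin μ → ℕ) (he : ∀ i v, e i v ≤ 2 ^ bb) :
    ∀ (r r0 : ℕ) (I : Finset (Fin k)) (A : Fin k → MvPolynomial (Fin n) ℤ) (d : ℕ),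
      I.card ≤ r + 1 → (∀ i ∈ I, Q r0 (A i)) → (∀ i ∈ I, (A i).totalDegree ≤ d) →
      ∑ i ∈ I, A i * ∏ v, f v ^ e i v ≠ 0 →
      Cert β f D0 Q bb r r0 I A d (∑ i ∈ I, A i * ∏ v, f v ^ e i v) := by
  classical
  intro r
  induction r with
  | zero =>
    intro r0 I A d hI hQA hAd hF
    obtain ⟨I₀, hI₀⟩ : ∃ I₀, I₀ = I.filter fun i => A i ≠ 0 := ⟨_, rfl⟩
    have hsub : I₀ ⊆ I := by
      rw [hI₀]
      exact Finset.filter_subset _ _
    have hsum : ∑ i ∈ I, A i * ∏ v, f v ^ e i v = ∑ i ∈ I₀, A i * ∏ v, f v ^ e i v := by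
      rw [hI₀]
      refine (Finset.sum_filter_of_ne fun i _ h => ?_).symm
      exact left_ne_zero_of_mul h
    have hA0 : ∀ i ∈ I₀, A i ≠ 0 := fun i hi => by
      rw [hI₀] at hi
      exact (Finset.mem_filter.1 hi).2
    have hc : I₀.card ≤ 1 := (Finset.card_le_card hsub).trans hI
    obtain ⟨r1, I', A', e', h1, h2, h3, h4, h5, h6, h7⟩ := cert_close β f hf0 hpr D0 Q bb e 0 r0 I₀ A d
      (fun i hi => hQA i (hsub hi)) (fun i hi => hAd i (hsub hi)) hA0
      (∑ i ∈ I, A i * ∏ v, f v ^ e i v) hsum hF (fun j hj => by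
        rw [hsum, ← piv_sum]
        refine Finset.sum_eq_zero fun i hi => ?_
        rw [Finset.card_le_one.1 hc i hi j hj, piv_self, zero_mul])
    exact ⟨r1, I', A', e', h1, h2, h3, h4, h5, h6,
      fun ψ hψ q s hq hs => h7 ψ hψ q s hq fun i hi => hs i (hsub hi)⟩
  | succ r ih =>
    intro r0 I A d hI hQA hAd hF
    obtain ⟨I₀, hI₀⟩ : ∃ I₀, I₀ = I.filter fun i => A i ≠ 0 := ⟨_, rfl⟩
    have hsub : I₀ ⊆ I := by
      rw [hI₀]
      exact Finset.filter_subset _ _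
    have hsum : ∑ i ∈ I, A i * ∏ v, f v ^ e i v = ∑ i ∈ I₀, A i * ∏ v, f v ^ e i v := by
      rw [hI₀]
      refine (Finset.sum_filter_of_ne fun i _ h => ?_).symm
      exact left_ne_zero_of_mul h
    have hA0 : ∀ i ∈ I₀, A i ≠ 0 := fun i hi => by
      rw [hI₀] at hi
      exact (Finset.mem_filter.1 hi).2
    have hc : I₀.card ≤ r + 1 + 1 := (Finset.card_le_card hsub).trans hI
    obtain ⟨F, hFd⟩ : ∃ F, F = ∑ i ∈ I, A i * ∏ v, f v ^ e i v := ⟨_, rfl⟩
    rw [← hFd] at hF ⊢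
    by_cases hz : ∀ j ∈ I₀, (∏ v, f v) * (A j * DD β F - F * DD β (A j)) -
        F * A j * lam β f (fun v => (e j v : ℤ)) = 0
    · obtain ⟨r1, I', A', e', h1, h2, h3, h4, h5, h6, h7⟩ := cert_close β f hf0 hpr D0 Q bb e (r + 1)
        r0 I₀ A d (fun i hi => hQA i (hsub hi)) (fun i hi => hAd i (hsub hi)) hA0
        F (hFd.trans hsum) hF hz
      exact ⟨r1, I', A', e', h1, h2, h3, h4, h5, h6,
        fun ψ hψ q s hq hs => h7 ψ hψ q s hq fun i hi => hs i (hsub hi)⟩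
    push Not at hz
    obtain ⟨j, hj, hne⟩ := hz
    obtain ⟨A1, hA1⟩ : ∃ A1 : Fin k → MvPolynomial (Fin n) ℤ, A1 = fun i =>
      piv β f (fun v => (e i v : ℤ) - e j v) (A i) (A j) := ⟨_, rfl⟩
    have hF1 : ∑ i ∈ I₀.erase j, A1 i * ∏ v, f v ^ e i v =
        (∏ v, f v) * (A j * DD β F - F * DD β (A j)) -
        F * A j * lam β f (fun v => (e j v : ℤ)) := by
      rw [hFd, hsum, ← piv_sum, ← Finset.add_sum_erase I₀ _ hj, piv_self, zero_mul, zero_add, hA1]
    have hl : ∀ i v, ((e i v : ℤ) - e j v).natAbs ≤ 2 ^ bb := by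
      intro i v
      have h1 := he i v
      have h2 := he j v
      omega
    obtain ⟨r1, I', A', e', h1, h2, h3, h4, h5, h6, h7⟩ := ih (r0 + 1) (I₀.erase j) A1
      (dst (μ * D0) d) (by
        rw [Finset.card_erase_of_mem hj]
        omega)
      (fun i hi => by
        rw [hA1]
        exact hQ r0 _ _ _ (hQA i (hsub (Finset.mem_of_mem_erase hi))) (hQA j (hsub hj)))
      (fun i hi => by
        rw [hA1]
        exact degree_piv β f D0 hfD _ _ _ d (hAd i (hsub (Finset.mem_of_mem_erase hi)))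
          (hAd j (hsub hj)))
      (by rw [hF1]; exact hne)
    rw [hF1] at h6
    refine ⟨r1, I', A', e', by omega, h2, fun i hi => ?_, fun i hi v => ?_, h5, ?_, ?_⟩
    · rw [Function.iterate_succ_apply]
      exact h3 i hi
    · rw [Function.iterate_succ_apply]
      exact h4 i hi v
    · intro κ _ ψ hψ hne' N hN
      rcases Nat.eq_zero_or_pos N with h0 | h0
      · rw [h0]
        exact Nat.zero_le _
      obtain ⟨N', rfl⟩ : ∃ N', N = N' + 1 := ⟨N - 1, by omega⟩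
      have h8 : Polynomial.X ^ N' ∣ ψ F := (pow_dvd_pow _ (Nat.le_succ _)).trans hN
      have h9 : Polynomial.X ^ N' ∣ ψ (DD β F) := by
        rw [hψ]
        obtain ⟨P, hP⟩ := hN
        rw [hP, Polynomial.derivative_mul, Polynomial.derivative_X_pow, Nat.add_sub_cancel]
        refine dvd_add ?_ ?_
        · exact ((dvd_mul_left _ _).mul_right _)
        · exact (pow_dvd_pow _ (Nat.le_succ _)).mul_right _
      have h10 := h6 κ ψ hψ hne' N' (by
        rw [map_sub, map_mul, map_sub, map_mul, map_mul, map_mul, map_mul]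
        refine dvd_sub ?_ ?_
        · exact (dvd_sub (h9.mul_left _) (h8.mul_right _)).mul_left _
        · exact (h8.mul_right _).mul_right _)
      omega
    · intro ψ hψ q s hq hs
      rw [Function.iterate_succ_apply]
      refine h7 ψ hψ q _ hq fun i hi => ?_
      rw [hA1]
      exact Sz_piv β f _ bb q s (hl i) ψ hψ hq _ _ (hs i (hsub (Finset.mem_of_mem_erase hi)))
        (hs j (hsub hj))

end Pool.Agent.EXP99
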