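import Mathlib
import Pool.Agent.Helper99_EXP.Rec
import Pool.Agent.Helper26_RS.Line

set_option autoImplicit false

/-!
# The direction
-/

namespace Pool.Agent.EXP99

open MvPolynomial Pool.Agent.Helper12_FV Pool.Agent.Helper26_RS Pool.Agent.UO

variable {n μ : ℕ}

lemma der_sum_apply (T : Finset (Fin n))
    (D : Fin n → Derivation ℤ (MvPolynomial (Fin n) ℤ) (MvPolynomial (Fin n) ℤ))
    (x : MvPolynomial (Fin n) ℤ) : (∑ s ∈ T, D s) x = ∑ s ∈ T, D s x := by
  classical
  induction T using Finset.induction_on with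
  | empty => simp
  | insert a T ha ih => rw [Finset.sum_insert ha, Finset.sum_insert ha, Derivation.add_apply, ih]

lemma DD_eq_sum (β : Fin n → ℤ) (g : MvPolynomial (Fin n) ℤ) :
    DD β g = ∑ s, C (β s) * pderiv s g := by
  have h : DD β = ∑ s, (C (β s) : MvPolynomial (Fin n) ℤ) • pderiv s := by
    apply derivation_ext
    intro i
    rw [DD, mkDerivation_X, der_sum_apply]
    simp only [Derivation.smul_apply, pderiv_X, smul_eq_mul]
    rw [Finset.sum_eq_single i]
    · simp
    · intro b _ hb
      rw [Pi.single_eq_of_ne hb.symm, mul_zero]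
    · intro h
      exact absurd (Finset.mem_univ i) h
  rw [h, der_sum_apply]
  rfl

/-- A direction of the generator in which the derivatives of finitely many nonconstant polynomials
do not vanish. -/
theorem exists_dir (p : Fin μ → MvPolynomial (Fin n) ℤ) (hp : ∀ v, 1 ≤ (p v).totalDegree) :
    ∃ w0 : ℕ, w0 ≤ n * μ ∧
      ∀ v, DD (ipt n (fun _ : Fin 1 => w0) (fun _ => 1)) (p v) ≠ 0 := by
  classical
  -- a variable of each polynomial
  have hex : ∀ v, ∃ s, pderiv s (p v) ≠ 0 := by
    intro v
    by_contra hcon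
    push Not at hcon
    have h1 : (p v).totalDegree = 0 := by
      rw [totalDegree_eq_zero_iff]
      intro d hd i
      by_contra h0
      have h2 : d - Finsupp.single i 1 + Finsupp.single i 1 = d := by
        apply tsub_add_cancel_of_le
        rw [Finsupp.single_le_iff]
        omega
      have h3 := congrArg (coeff (d - Finsupp.single i 1)) (hcon i)
      rw [coeff_pderiv, h2, coeff_zero] at h3
      rcases mul_eq_zero.1 h3 with h4 | h4
      · exact (mem_support_iff.1 hd) h4
      · exact Nat.cast_add_one_ne_zero ((d - Finsupp.single i 1 : Fin n →₀ ℕ) i) h4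
    have := hp v
    omega
  choose s hs using hex
  -- the polynomials in the parameter
  obtain ⟨g, hg⟩ : ∃ g : Fin μ → Polynomial (MvPolynomial (Fin n) ℤ), g = fun v =>
      ∑ i : Fin n, Polynomial.C (pderiv i (p v)) * ∏ l ∈ (Finset.range n).erase (i : ℕ),
        (Polynomial.X - Polynomial.C (l : MvPolynomial (Fin n) ℤ)) := ⟨_, rfl⟩
  have hev : ∀ v (w : ℕ), (g v).eval (w : MvPolynomial (Fin n) ℤ) =
      DD (ipt n (fun _ : Fin 1 => w) (fun _ => 1)) (p v) := by
    intro v w
    rw [hg, DD_eq_sum]
    simp only [Polynomial.eval_finsetSum, Polynomial.eval_mul, Polynomial.eval_C,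
      Polynomial.eval_prod, Polynomial.eval_sub, Polynomial.eval_X]
    refine Finset.sum_congr rfl fun i _ => ?_
    rw [mul_comm]
    congr 1
    unfold ipt point
    rw [if_pos i.2]
    simp
  have hg0 : ∀ v, g v ≠ 0 := by
    intro v h0
    have h1 : (g v).eval ((s v : ℕ) : MvPolynomial (Fin n) ℤ) =
        pderiv (s v) (p v) * ∏ l ∈ (Finset.range n).erase (s v : ℕ),
          (((s v : ℕ) : MvPolynomial (Fin n) ℤ) - (l : MvPolynomial (Fin n) ℤ)) := by
      rw [hg]
      simp only [Polynomial.eval_finsetSum, Polynomial.eval_mul, Polynomial.eval_C,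
        Polynomial.eval_prod, Polynomial.eval_sub, Polynomial.eval_X]
      rw [Finset.sum_eq_single (s v)]
      · intro i _ hi
        rw [Finset.prod_eq_zero (i := (s v : ℕ))]
        · rw [mul_zero]
        · rw [Finset.mem_erase, Finset.mem_range]
          exact ⟨fun h => hi (Fin.ext h.symm), (s v).2⟩
        · rw [sub_self]
      · intro h
        exact absurd (Finset.mem_univ _) h
    rw [h0, Polynomial.eval_zero] at h1
    rcases mul_eq_zero.1 h1.symm with h2 | h2
    · exact hs v h2
    · rw [Finset.prod_eq_zero_iff] at h2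
      obtain ⟨l, hl, h3⟩ := h2
      rw [sub_eq_zero] at h3
      exact (Finset.mem_erase.1 hl).1 (by exact_mod_cast h3.symm)
  have hdeg : ∀ v, (g v).natDegree ≤ n := by
    intro v
    rw [hg]
    refine Polynomial.natDegree_sum_le_of_forall_le _ _ fun i _ => ?_
    refine (Polynomial.natDegree_C_mul_le _ _).trans ?_
    refine (Polynomial.natDegree_prod_le _ _).trans ?_
    refine (Finset.sum_le_card_nsmul _ _ 1 fun l _ => Polynomial.natDegree_X_sub_C_le _).trans ?_
    rw [smul_eq_mul, mul_one]
    refine (Finset.card_erase_le).trans ?_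
    rw [Finset.card_range]
  -- the bad parameters
  obtain ⟨bad, hbad⟩ : ∃ bad : Fin μ → Finset ℕ, bad = fun v =>
      (Finset.range (n * μ + 1)).filter fun w : ℕ =>
        (g v).eval (w : MvPolynomial (Fin n) ℤ) = 0 := ⟨_, rfl⟩
  have hbc : ∀ v, (bad v).card ≤ n := by
    intro v
    refine le_trans ?_ ((Multiset.toFinset_card_le _).trans ((g v).card_roots'.trans (hdeg v)))
    refine Finset.card_le_card_of_injOn (fun w : ℕ => (w : MvPolynomial (Fin n) ℤ)) ?_ ?_
    · intro w hw
      rw [Finset.mem_coe, hbad, Finset.mem_filter] at hw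
      rw [Finset.mem_coe, Multiset.mem_toFinset, Polynomial.mem_roots (hg0 v)]
      exact hw.2
    · intro a _ b _ hab
      have h1 : (a : MvPolynomial (Fin n) ℤ) = b := hab
      exact_mod_cast h1
  have hcard : (Finset.univ.biUnion bad).card < (Finset.range (n * μ + 1)).card := by
    rw [Finset.card_range]
    refine Nat.lt_succ_of_le ((Finset.card_biUnion_le).trans ?_)
    refine (Finset.sum_le_card_nsmul _ _ n fun v _ => hbc v).trans ?_
    rw [Finset.card_univ, Fintype.card_fin, smul_eq_mul, mul_comm]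
  obtain ⟨w0, hw0, hw0'⟩ := Finset.exists_mem_notMem_of_card_lt_card hcard
  refine ⟨w0, Nat.lt_succ_iff.1 (Finset.mem_range.1 hw0), fun v h => hw0' ?_⟩
  rw [Finset.mem_biUnion]
  refine ⟨v, Finset.mem_univ v, ?_⟩
  rw [hbad, Finset.mem_filter]
  exact ⟨hw0, by rw [hev]; exact h⟩

end Pool.Agent.EXP99
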