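import Mathlib
import Pool.Agent.Helper99_EXP.Dir
import Pool.Agent.Helper78_ACIT.Prime

set_option autoImplicit false

/-!
# The point, the direction and the prime
-/

namespace Pool.Agent.EXP99

open MvPolynomial Pool.Agent.Helper12_FV Pool.Agent.Helper26_RS Pool.Agent.UO

variable {n μ : ℕ}

/-- The bound for the degree of the certificate. -/
def dgK (μ D0 r d : ℕ) : ℕ :=
  (dst (μ * D0))^[r] d + μ * ((dst (μ * D0))^[r] d * D0) + μ * D0

/-- The bound for the size of the certificate. -/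
def szK (μ D0 r d bb q s : ℕ) : ℕ :=
  (sst (μ + bb + 2 * q + μ * q))^[r] s + μ * ((dst (μ * D0))^[r] d * q) + (r + 1) + μ * q

/-- A nonzero sum of `r + 1` products of powers: there are a small prime, a point and a direction
such that the restriction modulo `p` to the line through the point has order at most `r` at the
point.  `Pt` is the set of the points. -/
theorem exists_good_gen (f : Fin μ → MvPolynomial (Fin n) ℤ) (hf1 : ∀ v, 1 ≤ (f v).totalDegree)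
    (hcop : ∀ u v, u ≠ v → IsRelPrime (f u) (f v)) (D0 : ℕ)
    (hfD : ∀ v, (f v).totalDegree ≤ D0) (Q : ℕ → MvPolynomial (Fin n) ℤ → Prop)
    (hQ : ∀ (β : Fin n → ℤ) r A B l, Q r A → Q r B → Q (r + 1) (piv β f l A B)) (r d M : ℕ)
    (Pt : (Fin n → ℤ) → Prop)
    (hpt : ∀ (r1 : ℕ) (I : Finset (Fin (r + 1))) (A : Fin (r + 1) → MvPolynomial (Fin n) ℤ)
      (e : Fin (r + 1) → Fin μ → ℕ), r1 ≤ r → (∀ i ∈ I, Q r1 (A i)) →
      (∀ i ∈ I, ∀ v, e i v ≤ (dst (μ * D0))^[r] d) →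
      (∑ i ∈ I, A i * ∏ v, f v ^ e i v) * ∏ v, f v ≠ 0 →
      ((∑ i ∈ I, A i * ∏ v, f v ^ e i v) * ∏ v, f v).totalDegree ≤ dgK μ D0 r d →
      ∃ α : Fin n → ℤ, Pt α ∧ (∀ s, (α s).natAbs ≤ M) ∧
        eval α ((∑ i ∈ I, A i * ∏ v, f v ^ e i v) * ∏ v, f v) ≠ 0)
    (bb : ℕ) (e : Fin (r + 1) → Fin μ → ℕ) (he : ∀ i v, e i v ≤ 2 ^ bb)
    (A : Fin (r + 1) → MvPolynomial (Fin n) ℤ) (hA : ∀ i, Q 0 (A i))
    (hAd : ∀ i, (A i).totalDegree ≤ d) (q s : ℕ)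
    (hM : 2 ^ (1 + n * (n * (μ + 1 + 1))) ≤ M)
    (hfE : ∀ α β : Fin n → ℤ, (∀ s, (α s).natAbs ≤ M) → (∀ s, (β s).natAbs ≤ M) →
      (∀ v, eval α (f v) ≠ 0) → ∀ v, Sz q (onl α β (f v)))
    (hAE : ∀ α β : Fin n → ℤ, (∀ s, (α s).natAbs ≤ M) → (∀ s, (β s).natAbs ≤ M) →
      ∀ i, Sz s (onl α β (A i)))
    (hne : ∑ i, A i * ∏ v, f v ^ e i v ≠ 0) :
    ∃ p, p.Prime ∧ p ≤ 64 * (szK μ D0 r d bb q s + 1) ^ 2 ∧
      ∃ (w0 : ℕ) (α : Fin n → ℤ), Pt α ∧
      ¬ (Polynomial.X : Polynomial (ZMod p)) ^ (r + 1) ∣ onl (fun s => (α s : ZMod p))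
        (fun s => (ipt n (fun _ : Fin 1 => w0) (fun _ => 1) s : ZMod p))
        (∑ i, A i * ∏ v, f v ^ e i v) := by
  classical
  have hf0 : ∀ v, f v ≠ 0 := by
    intro v h0
    have := hf1 v
    rw [h0] at this
    simp at this
  -- a prime factor of positive degree
  have hpex : ∀ v, ∃ p, Prime p ∧ 1 ≤ p.totalDegree ∧ p ∣ f v := by
    intro v
    by_contra hcon
    push Not at hcon
    have h1 : ∀ g : MvPolynomial (Fin n) ℤ, g ≠ 0 → g ∣ f v → g.totalDegree = 0 := by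
      intro g
      induction g using UniqueFactorizationMonoid.induction_on_prime with
      | h₁ => exact fun h _ => absurd rfl h
      | h₂ x hx => exact fun _ _ => totalDegree_unit hx
      | h₃ a p ha hp ih =>
        intro _ hd
        have h2 := ih ha ((Dvd.intro_left p rfl).trans hd)
        have h3 : p.totalDegree = 0 := by
          by_contra h4
          exact hcon p hp (by omega) ((Dvd.intro a rfl).trans hd)
        rw [totalDegree_mul_of_isDomain hp.ne_zero ha, h2, h3]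
    have h2 := h1 (f v) (hf0 v) dvd_rfl
    have := hf1 v
    omega
  choose pr hpr1 hpr2 hpr3 using hpex
  obtain ⟨w0, hw0, hdir⟩ := exists_dir pr hpr2
  obtain ⟨β, hβdef⟩ : ∃ β : Fin n → ℤ, β = ipt n (fun _ : Fin 1 => w0) (fun _ => 1) := ⟨_, rfl⟩
  rw [← hβdef] at hdir
  have hpr : ∀ v, ∃ p, Prime p ∧ 1 ≤ p.totalDegree ∧ p ∣ f v ∧ (∀ u, u ≠ v → ¬ p ∣ f u) ∧
      DD β p ≠ 0 := by
    intro v
    refine ⟨pr v, hpr1 v, hpr2 v, hpr3 v, fun u hu h => ?_, hdir v⟩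
    exact (hpr1 v).not_isUnit (hcop u v hu h (hpr3 v))
  obtain ⟨r1, I, A', e', h1, h2, h3, h4, h5, h6, h7⟩ := recur β f hf0 hpr D0 hfD Q (hQ β) bb e he
    r 0 Finset.univ A d (by simp) (fun i _ => hA i) (fun i _ => hAd i) hne
  obtain ⟨K, hK⟩ : ∃ K, K = (∑ i ∈ I, A' i * ∏ v, f v ^ e' i v) * ∏ v, f v := ⟨_, rfl⟩
  have hK0 : K ≠ 0 := by
    rw [hK]
    exact mul_ne_zero h5 (Finset.prod_ne_zero_iff.2 fun v _ => hf0 v)
  obtain ⟨dr, hdr⟩ : ∃ dr, dr = (dst (μ * D0))^[r] d := ⟨_, rfl⟩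
  have hKdeg : K.totalDegree ≤ dgK μ D0 r d := by
    rw [← hdr] at h3 h4
    rw [hK]
    refine (totalDegree_mul _ _).trans ?_
    unfold dgK
    rw [← hdr]
    refine Nat.add_le_add ?_ (degree_prod f D0 hfD)
    refine totalDegree_finsetSum_le fun i hi => ?_
    refine (totalDegree_mul _ _).trans (Nat.add_le_add (h3 i hi) ?_)
    refine (totalDegree_finsetProd _ _).trans ?_
    refine (Finset.sum_le_card_nsmul _ _ (dr * D0) fun v _ => ?_).trans ?_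
    · refine (totalDegree_pow _ _).trans ?_
      exact Nat.mul_le_mul (h4 i hi v) (hfD v)
    · rw [Finset.card_univ, Fintype.card_fin, smul_eq_mul]
  rw [hK] at hK0 hKdeg
  obtain ⟨α, hPt, hαM, hPK⟩ := hpt r1 I A' e' (by omega) h2 h4 hK0 hKdeg
  rw [← hK] at hPK
  have hβM : ∀ s, (β s).natAbs ≤ M := by
    intro s
    rw [hβdef]
    refine (natAbs_ipt_le n (μ + 1) 1 _ _ (fun _ => hw0.trans (Nat.mul_le_mul_left _ (Nat.le_succ _)))
      (fun _ => ?_) s).trans hM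
    exact Nat.mul_pos s.pos (Nat.succ_pos _)
  -- the value of the certificate
  have hfα : ∀ v, eval α (f v) ≠ 0 := by
    intro v h0
    apply hPK
    rw [hK, map_mul, map_prod, Finset.prod_eq_zero (Finset.mem_univ v) h0, mul_zero]
  have hψ : ∀ g, onl α β (DD β g) = Polynomial.derivative (onl α β g) := by
    intro g
    have h8 := DD_onl (S := ℤ) α β g
    simpa using h8
  have hSz : Sz (szK μ D0 r d bb q s) (onl α β K) := by
    rw [hK, map_mul, map_sum]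
    unfold szK
    rw [← hdr] at h4 ⊢
    have hHs : Sz (μ * q) (onl α β (∏ v, f v)) := by
      rw [map_prod]
      refine (Sz.prod _ fun u _ => hfE α β hαM hβM hfα u).mono (le_of_eq ?_)
      rw [Finset.card_univ, Fintype.card_fin]
    refine Sz.mul ?_ hHs
    have h8 : ∀ i ∈ I, Sz ((sst (μ + bb + 2 * q + μ * q))^[r] s + μ * (dr * q))
        (onl α β (A' i * ∏ v, f v ^ e' i v)) := by
      intro i hi
      rw [map_mul, map_prod]
      refine (h7 _ hψ q s (hfE α β hαM hβM hfα) (fun i _ => hAE α β hαM hβM i) i hi).mul ?_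
      refine (Sz.prod Finset.univ (s := dr * q) fun v _ => ?_).mono (le_of_eq ?_)
      · rw [map_pow]
        exact ((hfE α β hαM hβM hfα v).pow _).mono (Nat.mul_le_mul_right _ (h4 i hi v))
      · rw [Finset.card_univ, Fintype.card_fin]
    refine (Sz.sum I h8).mono (Nat.add_le_add_left ?_ _)
    refine (Finset.card_le_univ _).trans ?_
    rw [Fintype.card_fin]
  have hNB : (eval α K).natAbs ≤ 2 ^ szK μ D0 r d bb q s := by
    have h8 := hSz.coeff 0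
    rw [Polynomial.coeff_zero_eq_eval_zero, eval_zero_onl] at h8
    exact h8
  obtain ⟨p, hp, hple, hpnd⟩ := Helper78_ACIT.exists_prime_not_dvd _ _
    (Int.natAbs_ne_zero.2 hPK) hNB
  have : Fact p.Prime := ⟨hp⟩
  refine ⟨p, hp, hple, w0, α, hPt, fun hdvd => ?_⟩
  rw [← hβdef] at hdvd
  have h8 := h6 (ZMod p) (onl (fun s => (α s : ZMod p)) (fun s => (β s : ZMod p)))
    (fun g => DD_onl α β g) (by
      rw [← hK, eval_zero_cast]
      intro h0
      rw [ZMod.intCast_zmod_eq_zero_iff_dvd, Int.natCast_dvd] at h0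
      exact hpnd h0) (r + 1) hdvd
  omega

/-- The version for the generator of seed length `t`. -/
theorem exists_good (f : Fin μ → MvPolynomial (Fin n) ℤ) (hf1 : ∀ v, 1 ≤ (f v).totalDegree)
    (hcop : ∀ u v, u ≠ v → IsRelPrime (f u) (f v)) (D0 : ℕ)
    (hfD : ∀ v, (f v).totalDegree ≤ D0) (Q : ℕ → MvPolynomial (Fin n) ℤ → Prop)
    (hQ : ∀ (β : Fin n → ℤ) r A B l, Q r A → Q r B → Q (r + 1) (piv β f l A B)) (r t : ℕ)
    (hfh : ∀ v, Hit t (f v))
    (hhit : ∀ (r1 : ℕ) (I : Finset (Fin (r + 1))) (A : Fin (r + 1) → MvPolynomial (Fin n) ℤ)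
      (e : Fin (r + 1) → Fin μ → ℕ), r1 ≤ r → (∀ i ∈ I, Q r1 (A i)) →
      ∑ i ∈ I, A i * ∏ v, f v ^ e i v ≠ 0 → Hit t (∑ i ∈ I, A i * ∏ v, f v ^ e i v))
    (bb : ℕ) (e : Fin (r + 1) → Fin μ → ℕ) (he : ∀ i v, e i v ≤ 2 ^ bb)
    (A : Fin (r + 1) → MvPolynomial (Fin n) ℤ) (hA : ∀ i, Q 0 (A i)) (d : ℕ)
    (hAd : ∀ i, (A i).totalDegree ≤ d) (M q s : ℕ)
    (hM1 : 2 ^ (1 + n * (n * (μ + 1 + 1))) ≤ M)
    (hM2 : 2 ^ (t + n * (n * (dgK μ D0 r d + 1))) ≤ M)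
    (hfE : ∀ α β : Fin n → ℤ, (∀ s, (α s).natAbs ≤ M) → (∀ s, (β s).natAbs ≤ M) →
      (∀ v, eval α (f v) ≠ 0) → ∀ v, Sz q (onl α β (f v)))
    (hAE : ∀ α β : Fin n → ℤ, (∀ s, (α s).natAbs ≤ M) → (∀ s, (β s).natAbs ≤ M) →
      ∀ i, Sz s (onl α β (A i)))
    (hne : ∑ i, A i * ∏ v, f v ^ e i v ≠ 0) :
    ∃ p, p.Prime ∧ p ≤ 64 * (szK μ D0 r d bb q s + 1) ^ 2 ∧
      ∃ (w0 : ℕ) (w z : Fin t → ℕ),
      ¬ (Polynomial.X : Polynomial (ZMod p)) ^ (r + 1) ∣ onl (fun s => (ipt n w z s : ZMod p))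
        (fun s => (ipt n (fun _ : Fin 1 => w0) (fun _ => 1) s : ZMod p))
        (∑ i, A i * ∏ v, f v ^ e i v) := by
  obtain ⟨p, hp, hple, w0, α, ⟨w, z, hα⟩, h⟩ := exists_good_gen f hf1 hcop D0 hfD Q hQ r d M
    (fun α => ∃ w z : Fin t → ℕ, α = ipt n w z) (by
      intro r1 I A e hr1 hI _ hK hKd
      have hKhit : Hit t ((∑ i ∈ I, A i * ∏ v, f v ^ e i v) * ∏ v, f v) :=
        (hhit r1 I A e hr1 hI (left_ne_zero_of_mul hK)).mul (Hit.prod _ fun v _ => hfh v)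
      obtain ⟨w, z, hw, hz, hPK⟩ := hKhit.exists_point _ hKd
      exact ⟨ipt n w z, ⟨w, z, rfl⟩, fun s => (natAbs_ipt_le n _ t w z hw hz s).trans hM2, hPK⟩)
    bb e he A hA hAd q s hM1 hfE hAE hne
  exact ⟨p, hp, hple, w0, w, z, by rw [hα] at h; exact h⟩

end Pool.Agent.EXP99
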